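import Pool.Agent.Run7.h148.AX.Stm2

set_option autoImplicit false

open MeasureTheory Set Filter Topology
open scoped ENNReal ContDiff FourierTransform

namespace Pool.Agent.Run7.h29.AX

open Pool.Agent.Run7.h148.AX

theorem NN_pos (n : ℕ) : 0 < NN n := by unfold NN; positivity

theorem Cc_mul {ρ σ : E3 → ℝ} (h1 : Cc ρ) (h2 : Cc σ) : Cc (fun x => ρ x * σ x) :=
  ⟨h1.1.mul h2.1, h1.2.mul_right⟩

theorem Cc_smooth_mul {ψ ρ : E3 → ℝ} (h1 : ContDiff ℝ ∞ ψ) (h2 : Cc ρ) :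
    Cc (fun x => ψ x * ρ x) :=
  ⟨h1.mul h2.1, h2.2.mul_left⟩

theorem gen_le {ν : ℝ} {p q : ℤ} (h : p ≤ q) : Gen ν p ⊆ Gen ν q := by
  rintro f ⟨q', l, j, k, ρ, h1, h2, h3, h4⟩
  exact ⟨q', l, j, k, ρ, h1.trans h, h2, h3, h4⟩

theorem exp_split (j j' : ℕ) (τ : ℝ) :
    Real.exp (-(((j + j' : ℕ) : ℝ) * τ)) = Real.exp (-(j * τ)) * Real.exp (-(j' * τ)) := by
  rw [← Real.exp_add]; congr 1; push_cast; ring

theorem cos_p (k k' : ℤ) (N z : ℝ) : Real.cos (((k + k' : ℤ) : ℝ) * N * z)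
    = Real.cos (k * N * z) * Real.cos (k' * N * z) - Real.sin (k * N * z) * Real.sin (k' * N * z) := by
  rw [← Real.cos_add]; congr 1; push_cast; ring
theorem cos_m (k k' : ℤ) (N z : ℝ) : Real.cos (((k - k' : ℤ) : ℝ) * N * z)
    = Real.cos (k * N * z) * Real.cos (k' * N * z) + Real.sin (k * N * z) * Real.sin (k' * N * z) := by
  rw [← Real.cos_sub]; congr 1; push_cast; ring
theorem sin_p (k k' : ℤ) (N z : ℝ) : Real.sin (((k + k' : ℤ) : ℝ) * N * z)
    = Real.sin (k * N * z) * Real.cos (k' * N * z) + Real.cos (k * N * z) * Real.sin (k' * N * z) := by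
  rw [← Real.sin_add]; congr 1; push_cast; ring
theorem sin_m (k k' : ℤ) (N z : ℝ) : Real.sin (((k - k' : ℤ) : ℝ) * N * z)
    = Real.sin (k * N * z) * Real.cos (k' * N * z) - Real.cos (k * N * z) * Real.sin (k' * N * z) := by
  rw [← Real.sin_sub]; congr 1; push_cast; ring

theorem cc_mul (ν : ℝ) (q l j k ρ) (q' l' j' k' ρ') :
    Tc ν q l j k ρ * Tc ν q' l' j' k' ρ'
      = (1 / 2 : ℝ) • Tc ν (q + q') (l + l') (j + j') (k - k') (fun x => ρ x * ρ' x)
        + (1 / 2 : ℝ) • Tc ν (q + q') (l + l') (j + j') (k + k') (fun x => ρ x * ρ' x) := by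
  funext n t x
  simp only [Tc, Pi.mul_apply, Pi.smul_apply, Pi.add_apply, smul_eq_mul]
  rw [zpow_add₀ (NN_pos n).ne', exp_split, cos_p, cos_m, pow_add]
  ring
theorem cs_mul (ν : ℝ) (q l j k ρ) (q' l' j' k' ρ') :
    Tc ν q l j k ρ * Ts ν q' l' j' k' ρ'
      = (1 / 2 : ℝ) • Ts ν (q + q') (l + l') (j + j') (k + k') (fun x => ρ x * ρ' x)
        + (-(1 / 2) : ℝ) • Ts ν (q + q') (l + l') (j + j') (k - k') (fun x => ρ x * ρ' x) := by
  funext n t x
  simp only [Tc, Ts, Pi.mul_apply, Pi.smul_apply, Pi.add_apply, smul_eq_mul]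
  rw [zpow_add₀ (NN_pos n).ne', exp_split, sin_p, sin_m, pow_add]
  ring
theorem sc_mul (ν : ℝ) (q l j k ρ) (q' l' j' k' ρ') :
    Ts ν q l j k ρ * Tc ν q' l' j' k' ρ'
      = (1 / 2 : ℝ) • Ts ν (q + q') (l + l') (j + j') (k + k') (fun x => ρ x * ρ' x)
        + (1 / 2 : ℝ) • Ts ν (q + q') (l + l') (j + j') (k - k') (fun x => ρ x * ρ' x) := by
  funext n t x
  simp only [Tc, Ts, Pi.mul_apply, Pi.smul_apply, Pi.add_apply, smul_eq_mul]
  rw [zpow_add₀ (NN_pos n).ne', exp_split, sin_p, sin_m, pow_add]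
  ring
theorem ss_mul (ν : ℝ) (q l j k ρ) (q' l' j' k' ρ') :
    Ts ν q l j k ρ * Ts ν q' l' j' k' ρ'
      = (1 / 2 : ℝ) • Tc ν (q + q') (l + l') (j + j') (k - k') (fun x => ρ x * ρ' x)
        + (-(1 / 2) : ℝ) • Tc ν (q + q') (l + l') (j + j') (k + k') (fun x => ρ x * ρ' x) := by
  funext n t x
  simp only [Tc, Ts, Pi.mul_apply, Pi.smul_apply, Pi.add_apply, smul_eq_mul]
  rw [zpow_add₀ (NN_pos n).ne', exp_split, cos_p, cos_m, pow_add]
  ring

theorem Tc_mem {ν : ℝ} {p q : ℤ} {l j : ℕ} {k : ℤ} {ρ : E3 → ℝ} (h : q ≤ p) (hj : 1 ≤ j)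
    (hρ : Cc ρ) : Tc ν q l j k ρ ∈ OO ν p :=
  Submodule.subset_span ⟨q, l, j, k, ρ, h, hj, hρ, Or.inl rfl⟩
theorem Ts_mem {ν : ℝ} {p q : ℤ} {l j : ℕ} {k : ℤ} {ρ : E3 → ℝ} (h : q ≤ p) (hj : 1 ≤ j)
    (hρ : Cc ρ) : Ts ν q l j k ρ ∈ OO ν p :=
  Submodule.subset_span ⟨q, l, j, k, ρ, h, hj, hρ, Or.inr rfl⟩

theorem gen_mul {ν : ℝ} {p q : ℤ} {f g : Fam} (hf : f ∈ Gen ν p) (hg : g ∈ Gen ν q) :
    f * g ∈ OO ν (p + q) := by
  obtain ⟨a, l, j, k, ρ, h1, h2, h3, h4⟩ := hf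
  obtain ⟨a', l', j', k', ρ', h1', h2', h3', h4'⟩ := hg
  have hq : a + a' ≤ p + q := add_le_add h1 h1'
  have hj : 1 ≤ j + j' := by omega
  have hc := Cc_mul h3 h3'
  rcases h4 with rfl | rfl <;> rcases h4' with rfl | rfl
  · rw [cc_mul]
    exact add_mem (Submodule.smul_mem _ _ (Tc_mem hq hj hc)) (Submodule.smul_mem _ _ (Tc_mem hq hj hc))
  · rw [cs_mul]
    exact add_mem (Submodule.smul_mem _ _ (Ts_mem hq hj hc)) (Submodule.smul_mem _ _ (Ts_mem hq hj hc))
  · rw [sc_mul]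
    exact add_mem (Submodule.smul_mem _ _ (Ts_mem hq hj hc)) (Submodule.smul_mem _ _ (Ts_mem hq hj hc))
  · rw [ss_mul]
    exact add_mem (Submodule.smul_mem _ _ (Tc_mem hq hj hc)) (Submodule.smul_mem _ _ (Tc_mem hq hj hc))

theorem t_OC1 : S_OC1 := by
  refine ⟨fun ν p q h => Submodule.span_mono (gen_le h), ?_⟩
  intro ν p q f g hf hg
  induction hf using Submodule.span_induction with
  | mem f hf =>
    induction hg using Submodule.span_induction with
    | mem g hg => exact gen_mul hf hg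
    | zero => rw [mul_zero]; exact zero_mem _
    | add g g' _ _ h1 h2 => rw [mul_add]; exact add_mem h1 h2
    | smul c g _ h1 => rw [mul_smul_comm]; exact Submodule.smul_mem _ _ h1
  | zero => rw [zero_mul]; exact zero_mem _
  | add f f' _ _ h1 h2 => rw [add_mul]; exact add_mem h1 h2
  | smul c f _ h1 => rw [smul_mul_assoc]; exact Submodule.smul_mem _ _ h1

theorem t_OC3 : S_OC3 := by
  intro ν p f i ψ hψ hf
  induction hf using Submodule.span_induction with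
  | mem f hf =>
    obtain ⟨a, l, j, k, ρ, h1, h2, h3, h4⟩ := hf
    rcases h4 with rfl | rfl
    · have : (fun n t x => Real.exp (-(i * ta ν n t)) * ψ x * Tc ν a l j k ρ n t x)
          = Tc ν a l (i + j) k (fun x => ψ x * ρ x) := by
        funext n t x
        simp only [Tc]
        rw [exp_split]; ring
      rw [this]
      exact Tc_mem h1 (by omega) (Cc_smooth_mul hψ h3)
    · have : (fun n t x => Real.exp (-(i * ta ν n t)) * ψ x * Ts ν a l j k ρ n t x)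
          = Ts ν a l (i + j) k (fun x => ψ x * ρ x) := by
        funext n t x
        simp only [Ts]
        rw [exp_split]; ring
      rw [this]
      exact Ts_mem h1 (by omega) (Cc_smooth_mul hψ h3)
  | zero =>
    have : (fun (n : ℕ) (t : ℝ) (x : E3) => Real.exp (-(i * ta ν n t)) * ψ x * (0 : Fam) n t x) = 0 := by
      funext n t x; simp
    rw [this]; exact zero_mem _
  | add f g _ _ h1 h2 =>
    have : (fun (n : ℕ) (t : ℝ) (x : E3) => Real.exp (-(i * ta ν n t)) * ψ x * (f + g) n t x)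
        = (fun n t x => Real.exp (-(i * ta ν n t)) * ψ x * f n t x)
          + fun n t x => Real.exp (-(i * ta ν n t)) * ψ x * g n t x := by
      funext n t x; simp only [Pi.add_apply]; ring
    rw [this]; exact add_mem h1 h2
  | smul c f _ h1 =>
    have : (fun (n : ℕ) (t : ℝ) (x : E3) => Real.exp (-(i * ta ν n t)) * ψ x * (c • f) n t x)
        = c • (fun n t x => Real.exp (-(i * ta ν n t)) * ψ x * f n t x) := by
      funext n t x; simp only [Pi.smul_apply, smul_eq_mul]; ring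
    rw [this]; exact Submodule.smul_mem _ _ h1

end Pool.Agent.Run7.h29.AX
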