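import Pool.Agent.Run7.h29.AX.OC1

set_option autoImplicit false

open MeasureTheory Set Filter Topology
open scoped ENNReal ContDiff FourierTransform SchwartzMap

namespace Pool.Agent.Run7.h29.AX

open Pool.Agent.Run7.h148.AX

/-- decay of the Fourier transform of a smooth compactly supported function -/
theorem fdecay {ρ : E3 → ℝ} (h : Cc ρ) (m : ℕ) :
    ∃ C : ℝ, ∀ ξ, ‖ξ‖ ^ m * ‖𝓕 (fun x => ((ρ x : ℝ) : ℂ)) ξ‖ ≤ C := by
  have h1 : HasCompactSupport (fun x => ((ρ x : ℝ) : ℂ)) := h.2.comp_left (g := Complex.ofReal) (by simp)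
  have h2 : ContDiff ℝ ∞ (fun x => ((ρ x : ℝ) : ℂ)) := Complex.ofRealCLM.contDiff.comp h.1
  obtain ⟨C, -, hC⟩ := SchwartzMap.decay (𝓕 (h1.toSchwartzMap h2)) m 0
  refine ⟨C, fun ξ => ?_⟩
  have := hC ξ
  rw [norm_iteratedFDeriv_zero, SchwartzMap.fourier_coe] at this
  exact this

/-- the frequency `s e₂` -/
noncomputable def ez (s : ℝ) : E3 := EuclideanSpace.single 2 s

theorem norm_ez (s : ℝ) : ‖ez s‖ = |s| := by
  unfold ez; rw [PiLp.norm_single]; rfl

theorem inner_ez (x : E3) (s : ℝ) : inner ℝ x (ez s) = s * x 2 := by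
  unfold ez
  rw [EuclideanSpace.inner_single_right]
  simp

theorem f_ez {ρ : E3 → ℝ} (h : Cc ρ) (c : ℝ) :
    (∫ x, ρ x * Real.cos (c * x 2)) = (𝓕 (fun x => ((ρ x : ℝ) : ℂ)) (ez (c / (2 * Real.pi)))).re ∧
    (∫ x, ρ x * Real.sin (c * x 2)) = -(𝓕 (fun x => ((ρ x : ℝ) : ℂ)) (ez (c / (2 * Real.pi)))).im := by
  have hint : Integrable (fun x : E3 => Complex.exp (↑(-2 * Real.pi * inner ℝ x (ez (c / (2 * Real.pi)))) * Complex.I)
      • ((ρ x : ℝ) : ℂ)) := by
    have h1 : Continuous (fun x : E3 => Complex.exp (↑(-2 * Real.pi * inner ℝ x (ez (c / (2 * Real.pi)))) * Complex.I)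
      • ((ρ x : ℝ) : ℂ)) := by
      have := h.1.continuous
      fun_prop
    refine h1.integrable_of_hasCompactSupport (h.2.mono fun x hx => ?_)
    rw [Function.mem_support] at hx ⊢
    intro h0
    apply hx
    rw [h0]
    simp only [Complex.ofReal_zero, smul_zero]
  rw [Real.fourier_eq']
  have key : ∀ x : E3, Complex.exp (↑(-2 * Real.pi * inner ℝ x (ez (c / (2 * Real.pi)))) * Complex.I)
      • ((ρ x : ℝ) : ℂ) = ((ρ x * Real.cos (c * x 2) : ℝ) : ℂ) - ((ρ x * Real.sin (c * x 2) : ℝ) : ℂ) * Complex.I := by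
    intro x
    have e : (-2 * Real.pi * inner ℝ x (ez (c / (2 * Real.pi)))) = -(c * x 2) := by
      rw [inner_ez]; field_simp
    rw [e, Complex.exp_mul_I, ← Complex.ofReal_cos, ← Complex.ofReal_sin, Real.cos_neg, Real.sin_neg]
    push_cast
    simp only [smul_eq_mul]
    ring
  constructor
  · have := integral_re hint
    rw [← RCLike.re_eq_complex_re] 
    rw [← this]
    refine integral_congr_ae (Eventually.of_forall fun x => ?_)
    beta_reduce
    rw [key x]
    rw [RCLike.re_eq_complex_re]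
    simp only [Complex.sub_re, Complex.mul_re, Complex.ofReal_re, Complex.ofReal_im, Complex.I_re, Complex.I_im]
    ring
  · have := integral_im hint
    rw [← RCLike.im_eq_complex_im] 
    rw [← this, ← integral_neg]
    refine integral_congr_ae (Eventually.of_forall fun x => ?_)
    beta_reduce
    rw [key x]
    rw [RCLike.im_eq_complex_im]
    simp only [Complex.sub_im, Complex.mul_im, Complex.ofReal_re, Complex.ofReal_im, Complex.I_re, Complex.I_im]
    ring

theorem NN_tendsto : Tendsto (fun n : ℕ => NN n) atTop atTop := by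
  unfold NN
  exact tendsto_atTop_add_const_right _ _ tendsto_natCast_atTop_atTop

theorem one_le_NN (n : ℕ) : 1 ≤ NN n := by unfold NN; linarith [n.cast_nonneg (α := ℝ)]

theorem small {F : ℕ → ℝ} {q : ℤ} (H : ∀ m : ℕ, ∃ C : ℝ, ∀ n, NN n ^ m * |F n| ≤ C) :
    Tendsto (fun n => NN n ^ q * F n) atTop (𝓝 0) := by
  obtain ⟨C, hC⟩ := H ((q + 1).toNat)
  have h2 : Tendsto (fun n : ℕ => C * (NN n)⁻¹) atTop (𝓝 0) := by
    have := (tendsto_inv_atTop_zero.comp NN_tendsto).const_mul C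
    simpa using this
  refine squeeze_zero_norm (fun n => ?_) h2
  have hN := NN_pos n
  have h1 : NN n ^ (q + 1) ≤ NN n ^ ((q + 1).toNat) := by
    rw [← zpow_natCast]
    exact zpow_le_zpow_right₀ (one_le_NN n) (Int.self_le_toNat _)
  rw [Real.norm_eq_abs, abs_mul, abs_of_pos (zpow_pos hN q)]
  rw [← div_eq_mul_inv, le_div_iff₀ hN]
  calc NN n ^ q * |F n| * NN n = NN n ^ (q + 1) * |F n| := by
        rw [zpow_add_one₀ hN.ne']; ring
    _ ≤ NN n ^ ((q + 1).toNat) * |F n| := by gcongr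
    _ ≤ C := hC n

theorem t_OC5 : S_OC5 := by
  intro ρ q k hρ hk
  have hk' : (1 : ℝ) ≤ |(k : ℝ)| := by
    rw [← Int.cast_abs]; exact_mod_cast Int.one_le_abs hk
  have H : ∀ m : ℕ, ∃ C : ℝ, ∀ n, NN n ^ m * ‖𝓕 (fun x => ((ρ x : ℝ) : ℂ)) (ez (k * NN n / (2 * Real.pi)))‖ ≤ C := by
    intro m
    obtain ⟨C, hC⟩ := fdecay hρ m
    refine ⟨(2 * Real.pi) ^ m * C, fun n => ?_⟩
    have h1 := hC (ez (k * NN n / (2 * Real.pi)))
    rw [norm_ez, abs_div, abs_mul, abs_of_pos (NN_pos n), abs_of_pos (by positivity : (0:ℝ) < 2 * Real.pi)] at h1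
    have h2 : NN n ^ m ≤ (2 * Real.pi) ^ m * (|(k : ℝ)| * NN n / (2 * Real.pi)) ^ m := by
      rw [← mul_pow]
      have : 2 * Real.pi * (|(k : ℝ)| * NN n / (2 * Real.pi)) = |(k : ℝ)| * NN n := by field_simp
      rw [this]
      have := NN_pos n
      gcongr
      nlinarith
    calc _ ≤ (2 * Real.pi) ^ m * (|(k : ℝ)| * NN n / (2 * Real.pi)) ^ m * ‖𝓕 (fun x => ((ρ x : ℝ) : ℂ)) (ez (k * NN n / (2 * Real.pi)))‖ := by
          gcongr
      _ = (2 * Real.pi) ^ m * ((|(k : ℝ)| * NN n / (2 * Real.pi)) ^ m * ‖𝓕 (fun x => ((ρ x : ℝ) : ℂ)) (ez (k * NN n / (2 * Real.pi)))‖) := by ring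
      _ ≤ _ := by gcongr
  constructor
  · refine small fun m => ?_
    obtain ⟨C, hC⟩ := H m
    refine ⟨C, fun n => le_trans ?_ (hC n)⟩
    have e := (f_ez hρ (k * NN n)).1
    rw [e]
    have := NN_pos n
    gcongr
    exact Complex.abs_re_le_norm _
  · refine small fun m => ?_
    obtain ⟨C, hC⟩ := H m
    refine ⟨C, fun n => le_trans ?_ (hC n)⟩
    have e := (f_ez hρ (k * NN n)).2
    rw [e, abs_neg]
    have := NN_pos n
    gcongr
    exact Complex.abs_im_le_norm _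

end Pool.Agent.Run7.h29.AX
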