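import Pool.Agent.Run7.h29.AX.OC1

set_option autoImplicit false

open MeasureTheory Set Filter Topology
open scoped ENNReal ContDiff FourierTransform SchwartzMap

namespace Pool.Agent.Run7.h29.AX

open Pool.Agent.Run7.h148.AX

/-- the property proved by induction -/
def PP (f : Fam) (n : ℕ) : Prop :=
  (∀ t, Integrable (f n t)) ∧ (∀ t, Integrable (dtm f n t)) ∧
  (∀ x t, DifferentiableAt ℝ (fun s => f n s x) t) ∧
  ∀ t ξ, HasDerivAt (fun s => 𝓕 (fun x => ((f n s x : ℝ) : ℂ)) ξ)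
    (𝓕 (fun x => ((dtm f n t x : ℝ) : ℂ)) ξ) t

theorem four_cmul (c : ℝ) (φ : E3 → ℝ) (ξ : E3) :
    𝓕 (fun x => ((c * φ x : ℝ) : ℂ)) ξ = (c : ℂ) * 𝓕 (fun x => ((φ x : ℝ) : ℂ)) ξ := by
  rw [Real.fourier_eq', Real.fourier_eq', ← integral_const_mul]
  refine integral_congr_ae (Eventually.of_forall fun x => ?_)
  simp only [smul_eq_mul, Complex.ofReal_mul]
  ring

theorem four_add {φ ψ : E3 → ℝ} (h1 : Integrable φ) (h2 : Integrable ψ) (ξ : E3) :
    𝓕 (fun x => ((φ x + ψ x : ℝ) : ℂ)) ξ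
      = 𝓕 (fun x => ((φ x : ℝ) : ℂ)) ξ + 𝓕 (fun x => ((ψ x : ℝ) : ℂ)) ξ := by
  rw [Real.fourier_eq, Real.fourier_eq, Real.fourier_eq, ← integral_add]
  · refine integral_congr_ae (Eventually.of_forall fun x => ?_)
    simp only [Complex.ofReal_add, smul_add]
  · exact (Real.fourierIntegral_convergent_iff ξ).2 h1.ofReal
  · exact (Real.fourierIntegral_convergent_iff ξ).2 h2.ofReal

theorem PP_sep {f : Fam} {n : ℕ} {c : ℝ → ℝ} {φ : E3 → ℝ} (hc : Differentiable ℝ c)
    (hφ : Integrable φ) (h : ∀ t x, f n t x = c t * φ x) : PP f n := by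
  have e1 : ∀ t, f n t = fun x => c t * φ x := fun t => funext (h t)
  have e2 : ∀ t, dtm f n t = fun x => deriv c t * φ x := by
    intro t
    funext x
    simp only [dtm]
    have : (fun s => f n s x) = fun s => c s * φ x := funext fun s => h s x
    rw [this, deriv_mul_const (hc t)]
  refine ⟨fun t => ?_, fun t => ?_, fun x t => ?_, fun t ξ => ?_⟩
  · rw [e1]; exact hφ.const_mul _
  · rw [e2]; exact hφ.const_mul _
  · have : (fun s => f n s x) = fun s => c s * φ x := funext fun s => h s x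
    rw [this]; exact (hc t).mul_const _
  · have h1 : (fun s => 𝓕 (fun x => ((f n s x : ℝ) : ℂ)) ξ)
        = fun s => (c s : ℂ) * 𝓕 (fun x => ((φ x : ℝ) : ℂ)) ξ := by
      funext s
      rw [← four_cmul, e1]
    have h2 : 𝓕 (fun x => ((dtm f n t x : ℝ) : ℂ)) ξ
        = ((deriv c t : ℝ) : ℂ) * 𝓕 (fun x => ((φ x : ℝ) : ℂ)) ξ := by
      rw [e2, ← four_cmul]
    rw [h1, h2]
    exact (hc t).hasDerivAt.ofReal_comp.mul_const _

theorem PP_zero (n : ℕ) : PP 0 n :=
  PP_sep (c := fun _ => 0) (φ := fun _ => 0) (differentiable_const _) (integrable_zero _ _ _)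
    (fun t x => by simp)

theorem PP_add {f g : Fam} {n : ℕ} (hf : PP f n) (hg : PP g n) : PP (f + g) n := by
  obtain ⟨a1, a2, a3, a4⟩ := hf
  obtain ⟨b1, b2, b3, b4⟩ := hg
  have e2 : ∀ t, dtm (f + g) n t = fun x => dtm f n t x + dtm g n t x := by
    intro t
    funext x
    simp only [dtm]
    exact deriv_add (a3 x t) (b3 x t)
  refine ⟨fun t => (a1 t).add (b1 t), fun t => ?_, fun x t => (a3 x t).add (b3 x t), fun t ξ => ?_⟩
  · rw [e2]; exact (a2 t).add (b2 t)
  · have h1 : (fun s => 𝓕 (fun x => (((f + g) n s x : ℝ) : ℂ)) ξ)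
        = fun s => 𝓕 (fun x => ((f n s x : ℝ) : ℂ)) ξ + 𝓕 (fun x => ((g n s x : ℝ) : ℂ)) ξ := by
      funext s
      exact four_add (a1 s) (b1 s) ξ
    rw [h1, e2, four_add (a2 t) (b2 t)]
    exact (a4 t ξ).add (b4 t ξ)

theorem PP_smul {f : Fam} {n : ℕ} (c : ℝ) (hf : PP f n) : PP (c • f) n := by
  obtain ⟨a1, a2, a3, a4⟩ := hf
  have e2 : ∀ t, dtm (c • f) n t = fun x => c * dtm f n t x := by
    intro t
    funext x
    simp only [dtm]
    exact deriv_const_mul c (a3 x t)
  refine ⟨fun t => (a1 t).const_mul c, fun t => ?_, fun x t => (a3 x t).const_mul c, fun t ξ => ?_⟩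
  · rw [e2]; exact (a2 t).const_mul c
  · have h1 : (fun s => 𝓕 (fun x => (((c • f) n s x : ℝ) : ℂ)) ξ)
        = fun s => (c : ℂ) * 𝓕 (fun x => ((f n s x : ℝ) : ℂ)) ξ := by
      funext s
      exact four_cmul c _ ξ
    rw [h1, e2, four_cmul]
    exact (a4 t ξ).const_mul _

theorem integrable_trig {ρ : E3 → ℝ} (h : Cc ρ) {g : E3 → ℝ} (hg : Continuous g) :
    Integrable (fun x => ρ x * g x) :=
  (h.1.continuous.mul hg).integrable_of_hasCompactSupport h.2.mul_right

theorem t_OC6 : S_OC6 := by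
  intro ν p f hf n
  suffices H : PP f n from H.2.2.2
  induction hf using Submodule.span_induction with
  | mem f hf =>
    obtain ⟨q, l, j, k, ρ, h1, h2, h3, h4⟩ := hf
    have hc : Differentiable ℝ (fun t => NN n ^ q * ta ν n t ^ l * Real.exp (-(j * ta ν n t))) := by
      unfold ta
      fun_prop
    rcases h4 with rfl | rfl
    · refine PP_sep (φ := fun x => ρ x * Real.cos (k * NN n * x 2)) hc
        (integrable_trig h3 (by fun_prop)) ?_
      intro t x; simp only [Tc]; ring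
    · refine PP_sep (φ := fun x => ρ x * Real.sin (k * NN n * x 2)) hc
        (integrable_trig h3 (by fun_prop)) ?_
      intro t x; simp only [Ts]; ring
  | zero => exact PP_zero n
  | add f g _ _ h1 h2 => exact PP_add h1 h2
  | smul c f _ h1 => exact PP_smul c h1

end Pool.Agent.Run7.h29.AX
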