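import Pool.Agent.Run7.h29.AX.OC1

set_option autoImplicit false

open MeasureTheory Set Filter Topology
open scoped ENNReal ContDiff FourierTransform SchwartzMap

namespace Pool.Agent.Run7.h29.AX

open Pool.Agent.Run7.h148.AX

/-- weakly small sequences of functions -/
def Osc (g : ℕ → E3 → ℝ) : Prop := ∀ σ : E3 → ℝ, Cc σ →
  (∀ n, Integrable fun x => g n x * σ x) ∧ Tendsto (fun n => ∫ x, g n x * σ x) atTop (𝓝 0)

theorem Osc.add {g h : ℕ → E3 → ℝ} (hg : Osc g) (hh : Osc h) : Osc (fun n x => g n x + h n x) := by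
  intro σ hσ
  obtain ⟨a1, a2⟩ := hg σ hσ
  obtain ⟨b1, b2⟩ := hh σ hσ
  have e : ∀ n, (fun x => (g n x + h n x) * σ x) = fun x => g n x * σ x + h n x * σ x := by
    intro n; funext x; ring
  refine ⟨fun n => ?_, ?_⟩
  · rw [e]; exact (a1 n).add (b1 n)
  · have : (fun n => ∫ x, (g n x + h n x) * σ x)
        = fun n => (∫ x, g n x * σ x) + ∫ x, h n x * σ x := by
      funext n
      rw [e, integral_add (a1 n) (b1 n)]
    rw [this]
    simpa using a2.add b2

theorem Osc.smul {g : ℕ → E3 → ℝ} (c : ℝ) (hg : Osc g) : Osc (fun n x => c * g n x) := by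
  intro σ hσ
  obtain ⟨a1, a2⟩ := hg σ hσ
  have e : ∀ n, (fun x => (c * g n x) * σ x) = fun x => c * (g n x * σ x) := by
    intro n; funext x; ring
  refine ⟨fun n => ?_, ?_⟩
  · rw [e]; exact (a1 n).const_mul c
  · have : (fun n => ∫ x, (c * g n x) * σ x) = fun n => c * ∫ x, g n x * σ x := by
      funext n
      rw [e, integral_const_mul]
    rw [this]
    simpa using a2.const_mul c

theorem smooth_cc {ψ σ : E3 → ℝ} (h1 : ContDiff ℝ ∞ ψ) (h2 : Cc σ) : Cc (fun x => ψ x * σ x) :=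
  Cc_smooth_mul h1 h2

theorem osc_cos (h5 : S_OC5) {ψ : E3 → ℝ} (hψ : ContDiff ℝ ∞ ψ) (q : ℤ) {m : ℕ} (hm : m ≠ 0) :
    Osc (fun n x => NN n ^ q * (ψ x * Real.cos (m * NN n * x 2))) := by
  intro σ hσ
  have hc := smooth_cc hψ hσ
  have e : ∀ n, (fun x : E3 => (NN n ^ q * (ψ x * Real.cos (m * NN n * x 2))) * σ x)
      = fun x => NN n ^ q * (ψ x * σ x * Real.cos (((m : ℤ) : ℝ) * NN n * x 2)) := by
    intro n; funext x; push_cast; ring
  refine ⟨fun n => ?_, ?_⟩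
  · rw [e]
    refine Integrable.const_mul ?_ _
    refine ((hc.1.continuous.mul (by fun_prop)).integrable_of_hasCompactSupport hc.2.mul_right)
  · have := (h5 _ q (m : ℤ) hc (by exact_mod_cast hm)).1
    refine this.congr fun n => ?_
    rw [e, integral_const_mul]

theorem osc_sin (h5 : S_OC5) {ψ : E3 → ℝ} (hψ : ContDiff ℝ ∞ ψ) (q : ℤ) {m : ℕ} (hm : m ≠ 0) :
    Osc (fun n x => NN n ^ q * (ψ x * Real.sin (m * NN n * x 2))) := by
  intro σ hσ
  have hc := smooth_cc hψ hσ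
  have e : ∀ n, (fun x : E3 => (NN n ^ q * (ψ x * Real.sin (m * NN n * x 2))) * σ x)
      = fun x => NN n ^ q * (ψ x * σ x * Real.sin (((m : ℤ) : ℝ) * NN n * x 2)) := by
    intro n; funext x; push_cast; ring
  refine ⟨fun n => ?_, ?_⟩
  · rw [e]
    refine Integrable.const_mul ?_ _
    refine ((hc.1.continuous.mul (by fun_prop)).integrable_of_hasCompactSupport hc.2.mul_right)
  · have := (h5 _ q (m : ℤ) hc (by exact_mod_cast hm)).2
    refine this.congr fun n => ?_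
    rw [e, integral_const_mul]

theorem pd_smooth {f : E3 → ℝ} (hf : ContDiff ℝ ∞ f) (j : Fin 3) : ContDiff ℝ ∞ (pd j f) := by
  have h := hf.fderiv_right (m := ∞) (by simp)
  exact h.clm_apply contDiff_const

theorem pd_cmul {f : E3 → ℝ} (hf : ContDiff ℝ ∞ f) (j : Fin 3) (c : ℝ) (x : E3) :
    pd j (fun y => c * f y) x = c * pd j f x := by
  unfold pd
  rw [fderiv_const_mul (hf.differentiable (by simp) x)]
  rfl

/-- the coefficient of the correction -/
noncomputable def cf (h : Fin 3 → E3 → ℝ) (k : Fin 3) (x : E3) : ℝ :=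
  pd 2 (h k) x - if k = 2 then ∑ i, pd i (h i) x else 0

theorem cf_smooth {h : Fin 3 → E3 → ℝ} (hh : ∀ k, ContDiff ℝ ∞ (h k)) (k : Fin 3) :
    ContDiff ℝ ∞ (cf h k) := by
  unfold cf
  refine (pd_smooth (hh k) 2).sub ?_
  by_cases hk : k = 2
  · simp only [hk, if_true]
    exact ContDiff.sum fun i _ => pd_smooth (hh i) i
  · simp only [hk, if_false]
    exact contDiff_const

theorem cf_eq {h : Fin 3 → E3 → ℝ} (hh : ∀ k, ContDiff ℝ ∞ (h k)) {H : Fin 3 → Fam} {q : ℤ}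
    (hH : ∀ k n x, H k n 0 x = NN n ^ q * h k x) (k : Fin 3) (n : ℕ) (x : E3) :
    (pd 2 (H k n 0) x - if k = 2 then dvx H n 0 x else 0) = NN n ^ q * cf h k x := by
  have e : ∀ k, H k n 0 = fun y => NN n ^ q * h k y := fun k => funext (hH k n)
  have e2 : dvx H n 0 x = NN n ^ q * ∑ i, pd i (h i) x := by
    unfold dvx
    rw [Finset.mul_sum]
    refine Finset.sum_congr rfl fun i _ => ?_
    rw [e i, pd_cmul (hh i)]
  rw [e k, pd_cmul (hh k), e2]
  unfold cf
  split_ifs <;> ring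

theorem osc_bc (h5 : S_OC5) {h : Fin 3 → E3 → ℝ} (hh : ∀ k, ContDiff ℝ ∞ (h k)) {H : Fin 3 → Fam}
    {q : ℤ} (hH : ∀ k n x, H k n 0 x = NN n ^ q * h k x) {m : ℕ} (hm : m ≠ 0) (k : Fin 3) :
    Osc (fun n x => bc m H k n 0 x) := by
  have := (osc_cos h5 (hh k) q hm).add ((osc_sin h5 (cf_smooth hh k) (q - 1) hm).smul ((m : ℝ)⁻¹))
  convert this using 3 with n x
  unfold bc
  rw [cf_eq hh hH, hH, zpow_sub_one₀ (NN_pos n).ne', mul_inv]
  ring

theorem osc_bs (h5 : S_OC5) {h : Fin 3 → E3 → ℝ} (hh : ∀ k, ContDiff ℝ ∞ (h k)) {H : Fin 3 → Fam}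
    {q : ℤ} (hH : ∀ k n x, H k n 0 x = NN n ^ q * h k x) {m : ℕ} (hm : m ≠ 0) (k : Fin 3) :
    Osc (fun n x => bs m H k n 0 x) := by
  have := (osc_sin h5 (hh k) q hm).add ((osc_cos h5 (cf_smooth hh k) (q - 1) hm).smul (-(m : ℝ)⁻¹))
  convert this using 3 with n x
  unfold bs
  rw [cf_eq hh hH, hH, zpow_sub_one₀ (NN_pos n).ne', mul_inv]
  ring

theorem comp_smooth {A : E3 → E3} (hA : ContDiff ℝ ∞ A) (k : Fin 3) :
    ContDiff ℝ ∞ (fun x => A x k) :=
  ((EuclideanSpace.proj (𝕜 := ℝ) k : E3 →L[ℝ] ℝ).contDiff).comp hA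

theorem FA_smooth {A : E3 → E3} (hA : ContDiff ℝ ∞ A) (k : Fin 3) : ContDiff ℝ ∞ (FA A k) := by
  unfold FA dvA
  refine (ContDiff.sum fun j _ => (comp_smooth hA j).mul (pd_smooth (comp_smooth hA k) j)).sub ?_
  exact (ContDiff.sum fun j _ => pd_smooth (comp_smooth hA j) j).mul (comp_smooth hA k)

theorem ww_osc (h5 : S_OC5) (ν : ℝ) {A V : E3 → E3} (hA : ContDiff ℝ ∞ A) (hV : ContDiff ℝ ∞ V)
    (k : Fin 3) : Osc (fun n x => ww ν A V k n 0 x) := by
  have t1 := osc_bc h5 (h := fun k x => A x k) (fun k => comp_smooth hA k) (H := Hc ν A) (q := 1)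
    (by intro k n x; simp [Hc, ta]) (m := 1) one_ne_zero k
  have t2 := osc_bs h5 (h := fun k x => -2 * (1 / (4 * ν) * (V x 2 * A x k)))
    (fun k => contDiff_const.mul (contDiff_const.mul ((comp_smooth hV 2).mul (comp_smooth hA k))))
    (H := Hs ν A V) (q := 0)
    (by intro k n x; simp [Hs, ta]) (m := 1) one_ne_zero k
  have t3 := osc_bc h5 (h := fun k x => -(1 / (4 * ν)) * FA A k x)
    (fun k => contDiff_const.mul (FA_smooth hA k)) (H := Hk ν A) (q := 0)
    (by intro k n x; simp [Hk, ta]) (m := 2) two_ne_zero k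
  exact (t1.add t2).add t3

theorem t_OSC (h5 : S_OC5) : S_OSC := by
  intro ν A V φ hν hA hV hφ
  have hc : ∀ j, Cc (fun x => φ x j) := fun j =>
    ⟨comp_smooth hφ.1 j, hφ.2.comp_left (g := fun v : E3 => v j) (by simp)⟩
  have H := fun j => ww_osc h5 ν hA.1 hV j _ (hc j)
  have e : (fun n => pair (wf ν A V n 0) φ)
      = fun n => ∑ j, ∫ x, ww ν A V j n 0 x * φ x j := by
    funext n
    unfold pair
    rw [integral_finsetSum _ (fun j _ => by simpa [wf] using (H j).1 n)]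
    rfl
  rw [e]
  have := tendsto_finsetSum (Finset.univ : Finset (Fin 3)) (fun j _ => (H j).2)
  simpa using this

end Pool.Agent.Run7.h29.AX
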